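import Pool.Agent.Lib.SmA.Box

/-!
SMITH over F_q(t), block A (combinatorics), part A3: the covering argument.
-/

set_option autoImplicit false

open Finset

namespace Pool.Agent.SmA

variable {ι : Type*} [Fintype ι] [DecidableEq ι] {X : ι → Type*} [∀ i, Fintype (X i)]

open Classical in
/-- greedy choice of base points -/
private theorem greedy (Y : Finset (∀ i, X i)) (Good : (∀ i, X i) → (∀ i, X i) → Prop)
    (δ c : ℝ) (hδ : 0 ≤ δ)
    (hB : ∀ B ⊆ Y, δ * Fintype.card (∀ i, X i) ≤ #B →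
      c * (Fintype.card (∀ i, X i) : ℝ) ^ 2 ≤ ∑ x0 ∈ B, (#{x ∈ B | Good x0 x} : ℝ)) (k : ℕ) :
    ∃ T : Finset (∀ i, X i), #T ≤ k ∧
      ((#{x ∈ Y | ∀ t ∈ T, ¬ Good t x} : ℝ) ≤ δ * Fintype.card (∀ i, X i) ∨
        (#{x ∈ Y | ∀ t ∈ T, ¬ Good t x} : ℝ) ≤
          Fintype.card (∀ i, X i) - c * k * Fintype.card (∀ i, X i)) := by
  set N : ℝ := (Fintype.card (∀ i, X i) : ℝ) with hN
  induction k with
  | zero =>
    refine ⟨∅, le_rfl, Or.inr ?_⟩
    rw [Nat.cast_zero, mul_zero, zero_mul, sub_zero, hN]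
    exact_mod_cast (card_le_univ _)
  | succ k ih =>
    obtain ⟨T, hT, h1 | h1⟩ := ih
    · exact ⟨T, hT.trans (Nat.le_succ k), Or.inl h1⟩
    by_cases h2 : (#{x ∈ Y | ∀ t ∈ T, ¬ Good t x} : ℝ) ≤ δ * N
    · exact ⟨T, hT.trans (Nat.le_succ k), Or.inl h2⟩
    push Not at h2
    set B : Finset (∀ i, X i) := {x ∈ Y | ∀ t ∈ T, ¬ Good t x} with hBdef
    have h3 := hB B (filter_subset _ _) h2.le
    have hBpos : 0 < #B := by
      have : (0 : ℝ) < #B := lt_of_le_of_lt (by positivity) h2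
      exact_mod_cast this
    have hBN : (#B : ℝ) ≤ N := by
      rw [hN]
      exact_mod_cast (card_le_univ _)
    obtain ⟨x0, hx0, h4⟩ : ∃ x0 ∈ B, c * N ≤ (#{x ∈ B | Good x0 x} : ℝ) := by
      by_contra hcon
      push Not at hcon
      have h5 : ∑ x0 ∈ B, (#{x ∈ B | Good x0 x} : ℝ) < ∑ _x0 ∈ B, c * N :=
        sum_lt_sum_of_nonempty (card_pos.1 hBpos) hcon
      rw [sum_const, nsmul_eq_mul] at h5
      have h6 : c * N * N < #B * (c * N) := by
        calc c * N * N = c * N ^ 2 := by ring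
          _ ≤ _ := h3
          _ < _ := h5
      have hcN : 0 ≤ c * N := by
        obtain ⟨y, hy⟩ := card_pos.1 hBpos
        by_contra h7
        push Not at h7
        have := hcon y hy
        have h8 : (0 : ℝ) ≤ (#{x ∈ B | Good y x} : ℝ) := Nat.cast_nonneg _
        linarith
      nlinarith
    refine ⟨insert x0 T, (card_insert_le _ _).trans (by omega), Or.inr ?_⟩
    have h7 : {x ∈ Y | ∀ t ∈ insert x0 T, ¬ Good t x} = B \ {x ∈ B | Good x0 x} := by
      ext x
      simp only [hBdef, mem_filter, mem_insert, forall_eq_or_imp, mem_sdiff, not_and]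
      tauto
    have h8 : (#(B \ {x ∈ B | Good x0 x}) : ℝ) = #B - #{x ∈ B | Good x0 x} := by
      rw [card_sdiff_of_subset (filter_subset _ _), Nat.cast_sub (card_filter_le _ _)]
    rw [h7, h8]
    push_cast
    linarith

open Classical in
/-- A3: the covering argument -/
theorem covering (Y : Finset (∀ i, X i)) (F : (∀ i, X i) → ℝ) (hF : ∀ x, |F x| ≤ 1)
    (Good : (∀ i, X i) → (∀ i, X i) → Prop) (hY : ∀ x0 x, Good x0 x → x ∈ Y)
    (hfac : ∀ x0, ∃ φ : ι → (∀ i, X i) → ℝ, (∀ j, Misses j (φ j)) ∧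
      ∀ x, (if Good x0 x then (1 : ℝ) else 0) = ∏ j, φ j x)
    (γ : ℝ) (hγ : ∀ x0 (g : ι → (∀ i, X i) → ℝ), (∀ j, Misses j (g j)) →
      |∑ x, (if Good x0 x then (1 : ℝ) else 0) * F x * ∏ j, g j x| ≤
        γ * Fintype.card (∀ i, X i))
    (δ c : ℝ) (hδ : 0 ≤ δ)
    (hB : ∀ B ⊆ Y, δ * Fintype.card (∀ i, X i) ≤ #B →
      c * (Fintype.card (∀ i, X i) : ℝ) ^ 2 ≤
        #{p : (∀ i, X i) × (∀ i, X i) | p.1 ∈ B ∧ p.2 ∈ B ∧ Good p.1 p.2})
    (N : ℕ) (hN : 1 ≤ c * N) :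
    |∑ x ∈ Y, F x| ≤ (δ + 2 ^ N * γ) * Fintype.card (∀ i, X i) := by
  rcases isEmpty_or_nonempty (∀ i, X i) with he | hne
  · have h0 : (Fintype.card (∀ i, X i) : ℝ) = 0 := by
      rw [Fintype.card_eq_zero, Nat.cast_zero]
    have h1 : Y = ∅ := Finset.eq_empty_of_isEmpty Y
    rw [h0, h1, sum_empty, abs_zero, mul_zero]
  have hMpos : 0 < (Fintype.card (∀ i, X i) : ℝ) := by exact_mod_cast Fintype.card_pos
  have hB' : ∀ B ⊆ Y, δ * Fintype.card (∀ i, X i) ≤ #B →
      c * (Fintype.card (∀ i, X i) : ℝ) ^ 2 ≤ ∑ x0 ∈ B, (#{x ∈ B | Good x0 x} : ℝ) := by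
    intro B hBY hBδ
    refine (hB B hBY hBδ).trans (le_of_eq ?_)
    have h1 : ({p : (∀ i, X i) × (∀ i, X i) | p.1 ∈ B ∧ p.2 ∈ B ∧ Good p.1 p.2} :
        Finset ((∀ i, X i) × (∀ i, X i))) = (B.sigma (fun x0 => {x ∈ B | Good x0 x})).map
          ⟨fun p => (p.1, p.2), fun p p' h => by
            obtain ⟨a, b⟩ := p
            obtain ⟨a', b'⟩ := p'
            simp only [Prod.mk.injEq] at h
            obtain ⟨rfl, rfl⟩ := h
            rfl⟩ := by
      ext ⟨a, b⟩
      simp only [mem_filter, mem_univ, true_and, mem_map, mem_sigma, Function.Embedding.coeFn_mk,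
        Sigma.exists, Prod.mk.injEq]
      constructor
      · rintro ⟨h2, h3, h4⟩
        exact ⟨a, b, ⟨h2, h3, h4⟩, rfl, rfl⟩
      · rintro ⟨a', b', ⟨h2, h3, h4⟩, rfl, rfl⟩
        exact ⟨h2, h3, h4⟩
    rw [h1, card_map, card_sigma, Nat.cast_sum]
  obtain ⟨T, hT, h1⟩ := greedy Y Good δ c hδ hB' N
  set M : ℝ := (Fintype.card (∀ i, X i) : ℝ) with hM
  set B : Finset (∀ i, X i) := {x ∈ Y | ∀ t ∈ T, ¬ Good t x} with hBdef
  have hBδ : (#B : ℝ) ≤ δ * M := by
    rcases h1 with h1 | h1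
    · exact h1
    · refine h1.trans ?_
      have h2 : 0 ≤ δ * M := by positivity
      nlinarith
  set G : (∀ i, X i) → (∀ i, X i) → ℝ := fun t x => if Good t x then (1 : ℝ) else 0 with hG
  have hsplit : ∑ x ∈ Y, F x = ∑ x ∈ B, F x + ∑ x, (1 - ∏ t ∈ T, (1 + -G t x)) * F x := by
    have h2 : ∑ x ∈ Y, F x = ∑ x, if x ∈ Y then F x else 0 := by
      rw [sum_ite_mem, univ_inter]
    have h3 : ∑ x ∈ B, F x = ∑ x, if x ∈ B then F x else 0 := by
      rw [sum_ite_mem, univ_inter]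
    rw [h2, h3, ← sum_add_distrib]
    refine sum_congr rfl fun x _ => ?_
    by_cases hxB : x ∈ B
    · have h4 := mem_filter.1 hxB
      rw [if_pos h4.1, if_pos hxB, prod_eq_one, sub_self, zero_mul, add_zero]
      intro t ht
      rw [hG]
      simp only
      rw [if_neg (h4.2 t ht), neg_zero, add_zero]
    · by_cases hxY : x ∈ Y
      · have h4 : ∃ t ∈ T, Good t x := by
          by_contra hcon
          push Not at hcon
          exact hxB (mem_filter.2 ⟨hxY, hcon⟩)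
        obtain ⟨t, ht, h5⟩ := h4
        rw [if_pos hxY, if_neg hxB, prod_eq_zero ht, sub_zero, one_mul, zero_add]
        rw [hG]
        simp only
        rw [if_pos h5]
        norm_num
      · rw [if_neg hxY, if_neg hxB, prod_eq_one, sub_self, zero_mul, add_zero]
        intro t _
        rw [hG]
        simp only
        rw [if_neg (fun h => hxY (hY t x h)), neg_zero, add_zero]
  have hexp : ∀ x, (1 - ∏ t ∈ T, (1 + -G t x)) * F x =
      - ∑ A ∈ T.powerset.erase ∅, (∏ t ∈ A, -G t x) * F x := by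
    intro x
    rw [prod_one_add, ← add_sum_erase _ _ (empty_mem_powerset T), prod_empty, ← sum_mul]
    ring
  have hA : ∀ A ∈ T.powerset.erase ∅, |∑ x, (∏ t ∈ A, -G t x) * F x| ≤ γ * M := by
    intro A hA
    obtain ⟨t0, ht0⟩ := nonempty_iff_ne_empty.2 (mem_erase.1 hA).1
    choose φ hφ1 hφ2 using hfac
    have h2 := hγ t0 (fun j x => ∏ t ∈ A.erase t0, φ t j x) (fun j => ?_)
    · refine le_trans (le_of_eq ?_) h2
      have h3 : ∀ x, (∏ t ∈ A, -G t x) * F x = (-1) ^ #A *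
          ((if Good t0 x then (1 : ℝ) else 0) * F x * ∏ j, ∏ t ∈ A.erase t0, φ t j x) := by
        intro x
        have h4 : ∏ t ∈ A, -G t x = (-1) ^ #A * ∏ t ∈ A, G t x := by
          rw [← prod_const, ← prod_mul_distrib]
          exact prod_congr rfl fun t _ => by ring
        have h5 : ∏ t ∈ A.erase t0, G t x = ∏ j, ∏ t ∈ A.erase t0, φ t j x := by
          rw [prod_comm]
          exact prod_congr rfl fun t _ => hφ2 t x
        rw [h4, ← mul_prod_erase A (fun t => G t x) ht0, h5]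
        ring
      rw [sum_congr rfl fun x _ => h3 x, ← mul_sum, abs_mul, abs_pow, abs_neg, abs_one, one_pow,
        one_mul]
    · refine ⟨fun x => ?_, fun x z => ?_⟩
      · rw [abs_prod]
        exact prod_le_one (fun _ _ => abs_nonneg _) (fun t _ => (hφ1 t j).1 x)
      · exact prod_congr rfl fun t _ => (hφ1 t j).2 x z
  have hγ0 : 0 ≤ γ * M := by
    obtain ⟨x0⟩ := hne
    refine le_trans (abs_nonneg _) (hγ x0 (fun _ _ => 1) (fun j => ⟨fun x => ?_, fun x z => rfl⟩))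
    rw [abs_one]
  have hfin : |∑ x, (1 - ∏ t ∈ T, (1 + -G t x)) * F x| ≤ 2 ^ N * (γ * M) := by
    rw [sum_congr rfl fun x _ => hexp x, sum_neg_distrib, abs_neg, sum_comm]
    refine (abs_sum_le_sum_abs _ _).trans ((sum_le_sum hA).trans ?_)
    rw [sum_const, nsmul_eq_mul]
    refine mul_le_mul_of_nonneg_right ?_ hγ0
    have h2 : #(T.powerset.erase ∅) ≤ 2 ^ N := by
      refine (card_le_card (erase_subset _ _)).trans ?_
      rw [card_powerset]
      exact Nat.pow_le_pow_right (by norm_num) hT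
    exact_mod_cast h2
  have hBF : |∑ x ∈ B, F x| ≤ δ * M := by
    refine (abs_sum_le_sum_abs _ _).trans ((sum_le_sum fun x _ => hF x).trans ?_)
    rw [sum_const, nsmul_eq_mul, mul_one]
    exact hBδ
  rw [hsplit]
  refine (abs_add_le _ _).trans ((add_le_add hBF hfin).trans (le_of_eq ?_))
  ring

end Pool.Agent.SmA
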