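import Pool.Agent.Lib.SmA.Box

/-!
SMITH over F_q(t), block A (combinatorics), part A2: good cubes in a dense set.
-/

set_option autoImplicit false

open Finset

namespace Pool.Agent.SmA

variable {ι : Type*} [Fintype ι] [DecidableEq ι] {X : ι → Type*} [∀ i, Fintype (X i)]

/-- Cauchy-Schwarz for the classes of a map to `Fin h` -/
private theorem classes {α : Type*} [Fintype α] (S : Finset α) (h : ℕ) (κ : α → Fin h) :
    (#S : ℝ) ^ 2 ≤ h * ∑ z ∈ S, ∑ w ∈ S, (if κ z = κ w then (1 : ℝ) else 0) := by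
  classical
  have h1 : (#S : ℝ) = ∑ c : Fin h, (#{z ∈ S | κ z = c} : ℝ) := by
    rw [card_eq_sum_card_fiberwise (f := κ) (t := univ) (fun _ _ => mem_coe.2 (mem_univ _))]
    push_cast
    rfl
  have h2 : ∑ z ∈ S, ∑ w ∈ S, (if κ z = κ w then (1 : ℝ) else 0) =
      ∑ c : Fin h, (#{z ∈ S | κ z = c} : ℝ) ^ 2 := by
    have h3 : ∀ z ∈ S, ∑ w ∈ S, (if κ z = κ w then (1 : ℝ) else 0) =
        ∑ c : Fin h, (if κ z = c then (1 : ℝ) else 0) * #{w ∈ S | κ w = c} := by
      intro z _
      rw [sum_eq_single (κ z)]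
      · rw [if_pos rfl, one_mul, sum_boole]
        congr 2
        ext w
        simp [eq_comm]
      · intro c _ hc
        rw [if_neg (Ne.symm hc), zero_mul]
      · intro hn
        exact absurd (mem_univ _) hn
    rw [sum_congr rfl h3, sum_comm]
    refine sum_congr rfl fun c _ => ?_
    rw [← sum_mul, sum_boole, sq]
  rw [h1, h2]
  have h4 := sq_sum_le_card_mul_sum_sq (s := (univ : Finset (Fin h)))
    (f := fun c => (#{z ∈ S | κ z = c} : ℝ))
  rw [card_univ, Fintype.card_fin] at h4
  exact h4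

open Classical in
/-- number of pairs with `P U a (mix U a b)` -/
private noncomputable def NN (P : Finset ι → (∀ i, X i) → (∀ i, X i) → Prop) (U : Finset ι) : ℝ :=
  ∑ a : ∀ i, X i, ∑ b : ∀ i, X i, (if P U a (mix U a b) then (1 : ℝ) else 0)

private theorem nn_nonneg (P : Finset ι → (∀ i, X i) → (∀ i, X i) → Prop) (U : Finset ι) :
    0 ≤ NN P U := by
  unfold NN
  exact sum_nonneg fun _ _ => sum_nonneg fun _ _ => by split_ifs <;> norm_num

open Classical in
private theorem step2 (P : Finset ι → (∀ i, X i) → (∀ i, X i) → Prop) (h : ℕ)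
    (hP : ∀ (U : Finset ι) (i : ι), i ∉ U → ∀ a b : ∀ i, X i, (∀ j, j ∉ U → a j = b j) →
      ∃ κ : X i → Fin h, ∀ z w : X i,
        P U (Function.update a i z) (Function.update b i z) →
        P U (Function.update a i w) (Function.update b i w) → κ z = κ w →
        P (insert i U) (Function.update a i z) (Function.update b i w))
    (U : Finset ι) (i : ι) (hi : i ∉ U) :
    (NN P U) ^ 2 ≤ h * (Fintype.card (∀ i, X i) : ℝ) ^ 2 * NN P (insert i U) := by
  rcases isEmpty_or_nonempty (X i) with he | hne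
  · have hE : IsEmpty (∀ i, X i) := ⟨fun x => he.elim (x i)⟩
    have h0 : ∀ U, NN P U = 0 := by
      intro U
      unfold NN
      rw [Finset.univ_eq_empty, Finset.sum_empty]
    rw [h0, h0]
    simp
  set c : ℝ := (Fintype.card (X i) : ℝ) with hc
  set N : ℝ := (Fintype.card (∀ i, X i) : ℝ) with hN
  have hcpos : 0 < c := by
    rw [hc]
    exact_mod_cast Fintype.card_pos
  set S : (∀ i, X i) → (∀ i, X i) → Finset (X i) := fun a b =>
    {z : X i | P U (Function.update a i z) (Function.update (mix U a b) i z)} with hS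
  have h1 : c * NN P U = ∑ a, ∑ b, (#(S a b) : ℝ) := by
    have h2 : ∀ a : ∀ i, X i, ∀ b : ∀ i, X i,
        (#(S a b) : ℝ) = ∑ z, (if P U (Function.update a i z)
          (mix U (Function.update a i z) b) then (1 : ℝ) else 0) := by
      intro a b
      rw [sum_boole]
      congr 2
      rw [hS]
      simp only
      have h3 : ∀ z, mix U (Function.update a i z) b = Function.update (mix U a b) i z := by
        intro z
        have h3 := mix_update_notMem hi a b z (b i)
        rwa [Function.update_eq_self] at h3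
      simp only [h3]
    simp only [h2]
    unfold NN
    rw [sum_comm, mul_sum, sum_comm (s := univ) (t := univ)]
    refine sum_congr rfl fun b _ => ?_
    rw [hc, ← sum_update i (fun a => if P U a (mix U a b) then (1 : ℝ) else 0)]
  have h4 : ∑ a, ∑ b, (#(S a b) : ℝ) ^ 2 ≤ h * (c ^ 2 * NN P (insert i U)) := by
    have h7 : c ^ 2 * NN P (insert i U) = ∑ a, ∑ b, ∑ z, ∑ w,
        (if P (insert i U) (Function.update a i z) (Function.update (mix U a b) i w)
          then (1 : ℝ) else 0) := by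
      have h8 := sum_update2 i (fun a b : ∀ i, X i => if P (insert i U) a (mix (insert i U) a b)
        then (1 : ℝ) else 0)
      simp only [mix_update_insert] at h8
      rw [h8]
      rfl
    rw [h7, mul_sum]
    refine sum_le_sum fun a _ => ?_
    rw [mul_sum]
    refine sum_le_sum fun b _ => ?_
    obtain ⟨κ, hκ⟩ := hP U i hi a (mix U a b) (fun j hj => by simp [mix, hj])
    refine (classes (S a b) h κ).trans ?_
    refine mul_le_mul_of_nonneg_left ?_ (Nat.cast_nonneg _)
    have h13 : ∀ z ∈ S a b, ∑ w ∈ S a b, (if κ z = κ w then (1 : ℝ) else 0) ≤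
        ∑ w, (if P (insert i U) (Function.update a i z) (Function.update (mix U a b) i w)
          then (1 : ℝ) else 0) := by
      intro z hz
      refine (sum_le_sum (g := fun w => if P (insert i U) (Function.update a i z)
        (Function.update (mix U a b) i w) then (1 : ℝ) else 0) ?_).trans ?_
      · intro w hw
        by_cases hk : κ z = κ w
        · rw [if_pos hk, if_pos (hκ z w (mem_filter.1 hz).2 (mem_filter.1 hw).2 hk)]
        · rw [if_neg hk]
          split_ifs <;> norm_num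
      · exact sum_le_sum_of_subset_of_nonneg (subset_univ _)
          (fun _ _ _ => by split_ifs <;> norm_num)
    refine (sum_le_sum h13).trans ?_
    exact sum_le_sum_of_subset_of_nonneg (subset_univ _)
      (fun _ _ _ => sum_nonneg fun _ _ => by split_ifs <;> norm_num)
  have h5 : (∑ a, ∑ b, (#(S a b) : ℝ)) ^ 2 ≤ N ^ 2 * ∑ a, ∑ b, (#(S a b) : ℝ) ^ 2 := by
    rw [← Fintype.sum_prod_type (f := fun p : (∀ i, X i) × (∀ i, X i) => (#(S p.1 p.2) : ℝ)),
      ← Fintype.sum_prod_type (f := fun p : (∀ i, X i) × (∀ i, X i) => (#(S p.1 p.2) : ℝ) ^ 2)]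
    refine (sq_sum_le_card_mul_sum_sq).trans (le_of_eq ?_)
    rw [card_univ, Fintype.card_prod, hN]
    push_cast
    ring
  rw [← h1] at h5
  have h9 : c ^ 2 * (NN P U) ^ 2 ≤ c ^ 2 * (h * N ^ 2 * NN P (insert i U)) := by
    calc c ^ 2 * (NN P U) ^ 2 = (c * NN P U) ^ 2 := by ring
      _ ≤ N ^ 2 * ∑ a, ∑ b, (#(S a b) : ℝ) ^ 2 := h5
      _ ≤ N ^ 2 * (h * (c ^ 2 * NN P (insert i U))) :=
          mul_le_mul_of_nonneg_left h4 (by positivity)
      _ = _ := by ring
  exact le_of_mul_le_mul_left h9 (by positivity)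

open Classical in
/-- A2: the number of good cubes in a dense set -/
theorem good_cubes (P : Finset ι → (∀ i, X i) → (∀ i, X i) → Prop) (h : ℕ) (hh : 0 < h)
    (hP : ∀ (U : Finset ι) (i : ι), i ∉ U → ∀ a b : ∀ i, X i, (∀ j, j ∉ U → a j = b j) →
      ∃ κ : X i → Fin h, ∀ z w : X i,
        P U (Function.update a i z) (Function.update b i z) →
        P U (Function.update a i w) (Function.update b i w) → κ z = κ w →
        P (insert i U) (Function.update a i z) (Function.update b i w))
    (δ : ℝ) (hδ : 0 ≤ δ)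
    (hB : δ * Fintype.card (∀ i, X i) ≤ #{x : ∀ i, X i | P ∅ x x}) :
    δ ^ (2 ^ Fintype.card ι) / (h : ℝ) ^ (2 ^ Fintype.card ι) *
        (Fintype.card (∀ i, X i) : ℝ) ^ 2 ≤
      #{p : (∀ i, X i) × (∀ i, X i) | P univ p.1 p.2} := by
  rcases isEmpty_or_nonempty (∀ i, X i) with he | hne
  · have h0 : (Fintype.card (∀ i, X i) : ℝ) = 0 := by
      rw [Fintype.card_eq_zero, Nat.cast_zero]
    rw [h0, zero_pow two_ne_zero, mul_zero]
    exact Nat.cast_nonneg _
  have hN : 0 < (Fintype.card (∀ i, X i) : ℝ) := by exact_mod_cast Fintype.card_pos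
  set N : ℝ := (Fintype.card (∀ i, X i) : ℝ) with hNdef
  have hh' : (0 : ℝ) < h := by exact_mod_cast hh
  have key : ∀ U : Finset ι, h * δ ^ (2 ^ #U) * N ^ 2 ≤ NN P U * (h : ℝ) ^ (2 ^ #U) := by
    intro U
    induction U using Finset.induction_on with
    | empty =>
      rw [card_empty, pow_zero, pow_one, pow_one]
      have h1 : NN P ∅ = N * #{x : ∀ i, X i | P ∅ x x} := by
        unfold NN
        simp only [mix_empty, sum_const, card_univ, nsmul_eq_mul]
        rw [← mul_sum, sum_boole]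
      rw [h1]
      calc (h : ℝ) * δ * N ^ 2 = (N * (δ * N)) * h := by ring
        _ ≤ (N * #{x : ∀ i, X i | P ∅ x x}) * h := by
          refine mul_le_mul_of_nonneg_right ?_ hh'.le
          exact mul_le_mul_of_nonneg_left hB hN.le
    | insert i U hi ih =>
      rw [card_insert_of_notMem hi]
      have h1 := step2 P h hP U i hi
      rw [← hNdef] at h1
      have h2 : (h * δ ^ (2 ^ #U) * N ^ 2) ^ 2 ≤ (NN P U * (h : ℝ) ^ (2 ^ #U)) ^ 2 :=
        pow_le_pow_left₀ (by positivity) ih 2
      have e1 : (δ ^ (2 ^ #U)) ^ 2 = δ ^ (2 ^ (#U + 1)) := by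
        rw [← pow_mul, ← pow_succ]
      have e2 : ((h : ℝ) ^ (2 ^ #U)) ^ 2 = (h : ℝ) ^ (2 ^ (#U + 1)) := by
        rw [← pow_mul, ← pow_succ]
      have h3 : (h * N ^ 2) * (h * δ ^ (2 ^ (#U + 1)) * N ^ 2) ≤
          (h * N ^ 2) * (NN P (insert i U) * (h : ℝ) ^ (2 ^ (#U + 1))) := by
        calc (h * N ^ 2) * (h * δ ^ (2 ^ (#U + 1)) * N ^ 2)
            = (h * δ ^ (2 ^ #U) * N ^ 2) ^ 2 := by rw [← e1]; ring
          _ ≤ (NN P U * (h : ℝ) ^ (2 ^ #U)) ^ 2 := h2
          _ = (NN P U) ^ 2 * (h : ℝ) ^ (2 ^ (#U + 1)) := by rw [mul_pow, e2]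
          _ ≤ (h * N ^ 2 * NN P (insert i U)) * (h : ℝ) ^ (2 ^ (#U + 1)) :=
              mul_le_mul_of_nonneg_right h1 (by positivity)
          _ = _ := by ring
      exact le_of_mul_le_mul_left h3 (by positivity)
  have h1 := key univ
  have h2 : NN P univ = #{p : (∀ i, X i) × (∀ i, X i) | P univ p.1 p.2} := by
    unfold NN
    have h3 : ∀ a b : ∀ i, X i, mix univ a b = b := fun a b => by
      funext j
      simp [mix]
    simp only [h3]
    rw [← Fintype.sum_prod_type (f := fun p : (∀ i, X i) × (∀ i, X i) =>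
      if P univ p.1 p.2 then (1 : ℝ) else 0), sum_boole]
  rw [h2, card_univ] at h1
  rw [div_mul_eq_mul_div, div_le_iff₀ (by positivity)]
  have h4 : δ ^ (2 ^ Fintype.card ι) * N ^ 2 ≤ h * δ ^ (2 ^ Fintype.card ι) * N ^ 2 := by
    have h5 : (1 : ℝ) ≤ h := by exact_mod_cast hh
    have h6 : 0 ≤ δ ^ (2 ^ Fintype.card ι) * N ^ 2 := by positivity
    nlinarith
  exact h4.trans h1

end Pool.Agent.SmA
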