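import Mathlib

/-!
SMITH over F_q(t), block A (combinatorics), part A1: the box norm inequality.
`mix V a b` is the point with the coordinates of `b` on `V` and those of `a` off `V`.
-/

set_option autoImplicit false

open Finset

namespace Pool.Agent.SmA

variable {ι : Type*} [Fintype ι] [DecidableEq ι] {X : ι → Type*} [∀ i, Fintype (X i)]

/-- the vertex of the cube `(a, b)` given by the set `V` of coordinates -/
def mix (V : Finset ι) (a b : ∀ i, X i) : ∀ i, X i := fun i => if i ∈ V then b i else a i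

/-- `g` is bounded by one and does not depend on coordinate `j` -/
def Misses (j : ι) (g : (∀ i, X i) → ℝ) : Prop :=
  (∀ x, |g x| ≤ 1) ∧ ∀ x z, g (Function.update x j z) = g x

/-- averaging over one coordinate -/
theorem sum_update (i : ι) (F : (∀ i, X i) → ℝ) :
    ∑ a, ∑ z : X i, F (Function.update a i z) = Fintype.card (X i) * ∑ a, F a := by
  classical
  have h1 : ∑ a, ∑ z : X i, F (Function.update a i z) =
      ∑ p : (∀ i, X i) × X i, F (Function.update p.1 i p.2) := by
    rw [Fintype.sum_prod_type]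
  have h2 : (Fintype.card (X i) : ℝ) * ∑ a, F a = ∑ p : (∀ i, X i) × X i, F p.1 := by
    rw [Fintype.sum_prod_type]
    simp only [sum_const, card_univ, nsmul_eq_mul]
    rw [mul_sum]
  rw [h1, h2]
  refine Fintype.sum_equiv
    { toFun := fun p => (Function.update p.1 i p.2, p.1 i)
      invFun := fun p => (Function.update p.1 i p.2, p.1 i)
      left_inv := ?_
      right_inv := ?_ } _ _ (fun p => rfl)
  · intro p
    simp
  · intro p
    simp

/-- averaging over one coordinate in two points -/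
theorem sum_update2 (i : ι) (F : (∀ i, X i) → (∀ i, X i) → ℝ) :
    ∑ a, ∑ b, ∑ z : X i, ∑ w : X i, F (Function.update a i z) (Function.update b i w) =
      (Fintype.card (X i) : ℝ) ^ 2 * ∑ a, ∑ b, F a b := by
  have h1 : ∀ a : ∀ i, X i, ∑ b, ∑ z : X i, ∑ w : X i,
      F (Function.update a i z) (Function.update b i w) =
      ∑ z : X i, Fintype.card (X i) * ∑ b, F (Function.update a i z) b := by
    intro a
    rw [sum_comm]
    exact sum_congr rfl fun z _ => sum_update i (fun b => F (Function.update a i z) b)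
  rw [sum_congr rfl fun a _ => h1 a]
  rw [sum_update i (fun a => Fintype.card (X i) * ∑ b, F a b), ← mul_sum]
  ring

omit [Fintype ι] [∀ i, Fintype (X i)] in
theorem mix_update_notMem {V : Finset ι} {i : ι} (hi : i ∉ V) (a b : ∀ i, X i) (z w : X i) :
    mix V (Function.update a i z) (Function.update b i w) = Function.update (mix V a b) i z := by
  funext j
  unfold mix
  by_cases hj : j = i
  · subst hj
    simp [hi]
  · simp [Function.update_of_ne hj]

omit [Fintype ι] [∀ i, Fintype (X i)] in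
theorem mix_update_insert {V : Finset ι} {i : ι} (a b : ∀ i, X i) (z w : X i) :
    mix (insert i V) (Function.update a i z) (Function.update b i w) =
      Function.update (mix V a b) i w := by
  funext j
  unfold mix
  by_cases hj : j = i
  · subst hj
    simp
  · simp [hj]

omit [Fintype ι] [∀ i, Fintype (X i)] in
theorem mix_empty (a b : ∀ i, X i) : mix ∅ a b = a := by
  funext j
  simp [mix]

/-- the intermediate averages -/
private noncomputable def Phi (f : (∀ i, X i) → ℝ) (g : ι → (∀ i, X i) → ℝ) (U : Finset ι) : ℝ :=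
  ∑ a : ∀ i, X i, ∑ b : ∀ i, X i, ∏ V ∈ U.powerset,
    (f (mix V a b) * ∏ j ∈ univ \ U, g j (mix V a b))

private theorem step (f : (∀ i, X i) → ℝ) (g : ι → (∀ i, X i) → ℝ)
    (hg : ∀ j, Misses j (g j)) (U : Finset ι) (i : ι) (hi : i ∉ U) :
    (Phi f g U) ^ 2 ≤ (Fintype.card (∀ i, X i) : ℝ) ^ 2 * Phi f g (insert i U) := by
  classical
  rcases isEmpty_or_nonempty (X i) with he | hne
  · have hE : IsEmpty (∀ i, X i) := ⟨fun x => he.elim (x i)⟩
    have h0 : ∀ U, Phi f g U = 0 := by
      intro U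
      unfold Phi
      rw [Finset.univ_eq_empty, Finset.sum_empty]
    rw [h0, h0]
    simp
  set c : ℝ := (Fintype.card (X i) : ℝ) with hc
  set N : ℝ := (Fintype.card (∀ i, X i) : ℝ) with hN
  have hcpos : 0 < c := by
    rw [hc]
    exact_mod_cast Fintype.card_pos
  set φ : (∀ i, X i) → ℝ := fun x => f x * ∏ j ∈ univ \ insert i U, g j x with hφ
  set G : (∀ i, X i) → (∀ i, X i) → ℝ := fun a b => ∏ V ∈ U.powerset, g i (mix V a b) with hG
  set H : (∀ i, X i) → (∀ i, X i) → ℝ := fun a b => ∏ V ∈ U.powerset, φ (mix V a b) with hH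
  have hV : ∀ V ∈ U.powerset, i ∉ V := fun V hV h => hi (mem_powerset.1 hV h)
  have hmix : ∀ V ∈ U.powerset, ∀ (a b : ∀ i, X i) (z : X i),
      mix V (Function.update a i z) b = Function.update (mix V a b) i z := by
    intro V hV' a b z
    have h1 := mix_update_notMem (hV V hV') a b z (b i)
    rwa [Function.update_eq_self] at h1
  have hPhi : Phi f g U = ∑ a, ∑ b, G a b * H a b := by
    unfold Phi
    refine sum_congr rfl fun a _ => sum_congr rfl fun b _ => ?_
    rw [hG, hH]
    simp only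
    rw [← prod_mul_distrib]
    refine prod_congr rfl fun V _ => ?_
    have h1 : univ \ U = insert i (univ \ insert i U) := by
      ext j
      by_cases hj : j = i
      · subst hj
        simp [hi]
      · simp [hj]
    rw [h1, prod_insert (by simp)]
    rw [hφ]
    ring
  have hGz : ∀ a b z, G (Function.update a i z) b = G a b := by
    intro a b z
    refine prod_congr rfl fun V hV' => ?_
    rw [hmix V hV', (hg i).2]
  set K : (∀ i, X i) → (∀ i, X i) → ℝ := fun a b => ∑ z, H (Function.update a i z) b with hK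
  have h1 : c * Phi f g U = ∑ p : (∀ i, X i) × (∀ i, X i), G p.1 p.2 * K p.1 p.2 := by
    rw [hPhi, Fintype.sum_prod_type, sum_comm, mul_sum, sum_comm (s := univ) (t := univ)]
    refine sum_congr rfl fun b _ => ?_
    rw [hc, ← sum_update i (fun a => G a b * H a b)]
    refine sum_congr rfl fun a _ => ?_
    rw [hK]
    simp only
    rw [mul_sum]
    exact sum_congr rfl fun z _ => by rw [hGz]
  have h2 : (c * Phi f g U) ^ 2 ≤ N ^ 2 * ∑ a, ∑ b, K a b ^ 2 := by
    rw [h1]
    refine (sum_mul_sq_le_sq_mul_sq _ _ _).trans ?_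
    rw [← Fintype.sum_prod_type (f := fun p : (∀ i, X i) × (∀ i, X i) => K p.1 p.2 ^ 2)]
    refine mul_le_mul_of_nonneg_right ?_ (sum_nonneg fun p _ => sq_nonneg _)
    have h3 : ∀ p ∈ (univ : Finset ((∀ i, X i) × (∀ i, X i))), G p.1 p.2 ^ 2 ≤ 1 := by
      intro p _
      rw [sq_le_one_iff_abs_le_one, hG]
      simp only
      rw [abs_prod]
      exact prod_le_one (fun _ _ => abs_nonneg _) (fun V _ => (hg i).1 _)
    refine (sum_le_sum h3).trans ?_
    rw [sum_const, card_univ, Fintype.card_prod, nsmul_eq_mul, mul_one, hN]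
    push_cast
    exact le_of_eq (by ring)
  have h4 : ∑ a, ∑ b, K a b ^ 2 = c ^ 2 * Phi f g (insert i U) := by
    set H' : (∀ i, X i) → (∀ i, X i) → ℝ := fun a b =>
      ∏ V ∈ (insert i U).powerset, φ (mix V a b) with hH'
    have h5 : ∀ a b z w, H' (Function.update a i z) (Function.update b i w) =
        H (Function.update a i z) b * H (Function.update a i w) b := by
      intro a b z w
      rw [hH', hH]
      simp only
      rw [prod_powerset_insert hi]
      congr 1
      · refine prod_congr rfl fun V hV' => ?_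
        rw [mix_update_notMem (hV V hV'), hmix V hV']
      · refine prod_congr rfl fun V hV' => ?_
        rw [mix_update_insert, hmix V hV']
    have h6 : Phi f g (insert i U) = ∑ a, ∑ b, H' a b := rfl
    have h7 : c ^ 2 * ∑ a, ∑ b, H' a b = ∑ a, ∑ z, ∑ b, ∑ w,
        H' (Function.update a i z) (Function.update b i w) := by
      have h8 : ∀ a z, ∑ b, ∑ w, H' (Function.update a i z) (Function.update b i w) =
          c * ∑ b, H' (Function.update a i z) b := fun a z =>
        sum_update i (fun b => H' (Function.update a i z) b)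
      simp only [h8]
      rw [sum_update i (fun a => c * ∑ b, H' a b), ← mul_sum]
      ring
    rw [h6, h7]
    refine sum_congr rfl fun a _ => ?_
    rw [sum_comm (s := univ) (t := univ)]
    refine sum_congr rfl fun b _ => ?_
    rw [hK]
    simp only
    rw [sq, sum_mul_sum]
    exact sum_congr rfl fun z _ => sum_congr rfl fun w _ => (h5 a b z w).symm
  rw [h4] at h2
  have h9 : c ^ 2 * (Phi f g U) ^ 2 ≤ c ^ 2 * (N ^ 2 * Phi f g (insert i U)) := by
    calc c ^ 2 * (Phi f g U) ^ 2 = (c * Phi f g U) ^ 2 := by ring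
      _ ≤ _ := h2
      _ = _ := by ring
  exact le_of_mul_le_mul_left h9 (by positivity)

private theorem chain (f : (∀ i, X i) → ℝ) (g : ι → (∀ i, X i) → ℝ)
    (hg : ∀ j, Misses j (g j)) (hN : 0 < (Fintype.card (∀ i, X i) : ℝ)) (U : Finset ι) :
    (Phi f g ∅) ^ (2 ^ #U) * (Fintype.card (∀ i, X i) : ℝ) ^ 2 ≤
        (Fintype.card (∀ i, X i) : ℝ) ^ (2 * 2 ^ #U) * Phi f g U ∧
      |Phi f g ∅| ^ (2 ^ #U) * (Fintype.card (∀ i, X i) : ℝ) ^ 2 ≤
        (Fintype.card (∀ i, X i) : ℝ) ^ (2 * 2 ^ #U) * |Phi f g U| := by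
  set N : ℝ := (Fintype.card (∀ i, X i) : ℝ) with hNdef
  induction U using Finset.induction_on with
  | empty =>
    simp only [card_empty, pow_zero, pow_one, mul_one]
    exact ⟨le_of_eq (mul_comm _ _), le_of_eq (mul_comm _ _)⟩
  | insert i U hi ih =>
    have h1 := step f g hg U i hi
    rw [← hNdef] at h1
    rw [card_insert_of_notMem hi]
    have h2 : |Phi f g ∅| ^ (2 ^ (#U + 1)) * N ^ 2 ≤
        N ^ (2 * 2 ^ (#U + 1)) * Phi f g (insert i U) := by
      have h3 : (|Phi f g ∅| ^ (2 ^ #U) * N ^ 2) ^ 2 ≤ (N ^ (2 * 2 ^ #U) * |Phi f g U|) ^ 2 :=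
        pow_le_pow_left₀ (by positivity) ih.2 2
      have h4 : (N ^ (2 * 2 ^ #U) * |Phi f g U|) ^ 2 ≤
          N ^ (2 * 2 ^ (#U + 1)) * (N ^ 2 * Phi f g (insert i U)) := by
        rw [mul_pow, sq_abs, ← pow_mul]
        have e1 : 2 * 2 ^ #U * 2 = 2 * 2 ^ (#U + 1) := by ring
        rw [e1]
        exact mul_le_mul_of_nonneg_left h1 (by positivity)
      have h5 := h3.trans h4
      have h6 : N ^ 2 * (|Phi f g ∅| ^ (2 ^ (#U + 1)) * N ^ 2) ≤
          N ^ 2 * (N ^ (2 * 2 ^ (#U + 1)) * Phi f g (insert i U)) := by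
        calc N ^ 2 * (|Phi f g ∅| ^ (2 ^ (#U + 1)) * N ^ 2)
            = (|Phi f g ∅| ^ (2 ^ #U) * N ^ 2) ^ 2 := by
              rw [pow_succ 2 #U, pow_mul]
              ring
          _ ≤ _ := h5
          _ = _ := by ring
      exact le_of_mul_le_mul_left h6 (by positivity)
    have h7 : Phi f g ∅ ^ (2 ^ (#U + 1)) = |Phi f g ∅| ^ (2 ^ (#U + 1)) := by
      rw [pow_succ 2 #U, mul_comm, pow_mul, pow_mul, sq_abs]
    refine ⟨by rw [h7]; exact h2, h2.trans ?_⟩
    exact mul_le_mul_of_nonneg_left (le_abs_self _) (by positivity)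

/-- A1: the box norm inequality -/
theorem box_norm (f : (∀ i, X i) → ℝ) (g : ι → (∀ i, X i) → ℝ) (hg : ∀ j, Misses j (g j)) :
    (Fintype.card (∀ i, X i) : ℝ) ^ 2 * (∑ x, f x * ∏ j, g j x) ^ (2 ^ Fintype.card ι) ≤
      (Fintype.card (∀ i, X i) : ℝ) ^ (2 ^ Fintype.card ι) *
        ∑ a : ∀ i, X i, ∑ b : ∀ i, X i, ∏ V : Finset ι, f (mix V a b) := by
  classical
  rcases isEmpty_or_nonempty (∀ i, X i) with he | hne
  · have h0 : (Fintype.card (∀ i, X i) : ℝ) = 0 := by
      rw [Fintype.card_eq_zero, Nat.cast_zero]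
    rw [h0, zero_pow two_ne_zero, zero_mul, zero_pow (by positivity), zero_mul]
  have hN : 0 < (Fintype.card (∀ i, X i) : ℝ) := by exact_mod_cast Fintype.card_pos
  have h1 := (chain f g hg hN univ).1
  set N : ℝ := (Fintype.card (∀ i, X i) : ℝ) with hNdef
  have h2 : Phi f g ∅ = N * ∑ x, f x * ∏ j, g j x := by
    unfold Phi
    simp only [powerset_empty, prod_singleton, mix_empty, sdiff_empty, sum_const, card_univ,
      nsmul_eq_mul]
    rw [mul_sum]
  have h3 : Phi f g univ = ∑ a : ∀ i, X i, ∑ b : ∀ i, X i, ∏ V : Finset ι, f (mix V a b) := by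
    unfold Phi
    simp only [powerset_univ, sdiff_self, bot_eq_empty, prod_empty, mul_one]
  rw [h2, h3, card_univ] at h1
  have h4 : N ^ (2 ^ Fintype.card ι) *
      (N ^ 2 * (∑ x, f x * ∏ j, g j x) ^ (2 ^ Fintype.card ι)) ≤
      N ^ (2 ^ Fintype.card ι) * (N ^ (2 ^ Fintype.card ι) *
        ∑ a : ∀ i, X i, ∑ b : ∀ i, X i, ∏ V : Finset ι, f (mix V a b)) := by
    calc N ^ (2 ^ Fintype.card ι) *
      (N ^ 2 * (∑ x, f x * ∏ j, g j x) ^ (2 ^ Fintype.card ι))
        = (N * ∑ x, f x * ∏ j, g j x) ^ (2 ^ Fintype.card ι) * N ^ 2 := by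
          rw [mul_pow]
          ring
      _ ≤ _ := h1
      _ = _ := by
          rw [mul_comm 2, pow_mul]
          ring
  exact le_of_mul_le_mul_left h4 (by positivity)

end Pool.Agent.SmA
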